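import Mathlib
import Pool.Agent.H529.R.L44
import Pool.Agent.H529.MP.Three
import Pool.Agent.H529.MP.FourD

/-!
# The theorem of Maynard and Tao with explicit numbers: 44, 2946, 200705

Of any admissible `44` (`2946`, `200705`) integers `a i` at least two (three, four) of the numbers `n + a i` are
primes, with no other primes in the interval which the `n + a i` span, for at least `x ^ (1 - ε)` of the
`n ≤ x`. Published: `50`, `35410`, `1649821` (Polymath 8b).

The three certificates are `Pool.Agent.H529.G.cert`, `Pool.Agent.H529.MP.lhyp3`, `Pool.Agent.H529.MP.lhyp4`.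
-/

set_option autoImplicit false

open Filter

namespace Pool.Agent.Results.MP_8923e7_nt.ExplicitMaynardTao

/-- For every admissible family of `K` distinct integers `a i`, every `ε > 0` and all large `x` at least
`x ^ (1 - ε)` of the integers `1 ≤ n ≤ x` are such that at least `m` of the numbers `n + a i` are primes and every
prime in the interval spanned by the `n + a i` is one of them. -/
def MaynardTao (m K : ℕ) : Prop :=
  ∀ a : Fin K → ℤ, Function.Injective a →
    (∀ p : ℕ, p.Prime → ∃ r : ℤ, ∀ i, ¬ (p : ℤ) ∣ r + a i) → ∀ ε : ℝ, 0 < ε →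
    ∀ᶠ x : ℝ in atTop, x ^ (1 - ε) ≤ (Set.ncard {n : ℕ | 1 ≤ n ∧ (n : ℝ) ≤ x ∧
      m ≤ Set.ncard {i : Fin K | ∃ p : ℕ, p.Prime ∧ (p : ℤ) = n + a i} ∧
      ∀ p : ℕ, p.Prime → (∃ i j, (n : ℤ) + a i ≤ p ∧ (p : ℤ) ≤ n + a j) → ∃ i, (p : ℤ) = n + a i} : ℝ)

/-- Two of any admissible `44`, three of any admissible `2946` and four of any admissible `200705` integers
`n + a i` are primes. -/
theorem result : MaynardTao 2 44 ∧ MaynardTao 3 2946 ∧ MaynardTao 4 200705 :=
  ⟨fun a ha hadm ε hε => Pool.Agent.H358R5.CONS_proof 1 44 le_rfl Pool.Agent.H529.R.chyp2 a ha hadm ε hε,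
    fun a ha hadm ε hε =>
      Pool.Agent.H358R5.CONS_proof 2 2946 (by norm_num) Pool.Agent.H529.MP.chyp3 a ha hadm ε hε,
    fun a ha hadm ε hε =>
      Pool.Agent.H358R5.CONS_proof 3 200705 (by norm_num) Pool.Agent.H529.MP.chyp4 a ha hadm ε hε⟩

end Pool.Agent.Results.MP_8923e7_nt.ExplicitMaynardTao
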