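import Mathlib
import Pool.Agent.H528.Half
import Pool.Graph.R_pool_sql_team_seeded_1acbe0a2.Y978.QL.Prm
import Pool.Graph.R_pool_sql_team_seeded_1acbe0a2.Y822.Q.Int

set_option autoImplicit false

/-!
# At least half of the members of almost every tuple are primes, the others products of two primes

For all `k ≥ 2` and `ε > 0` there are `δ < 1` and `ξ > 0` such that for all but `C(|A|, k - 1) N ^ δ` of the `k`-element
admissible subsets `H` of an arbitrary set `A` of shifts in `[1, N]` there are at least `2 ^ k / (k + 1) - ε` times the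
number `𝔖(H) N / (log N) ^ k` of integers `n ≤ N` such that every `n + h`, `h ∈ H`, is a prime or a product of two
primes `≥ N ^ ξ`, and at least half of them are primes.
-/

namespace Pool.Agent.Results.MP_8923e7_nt.HalfPrimesRestSemiprimes

open Finset Filter
open Pool.Agent.H387R2.Uni

open Classical in
/-- The number of `1 ≤ n ≤ N` such that at least half of the numbers `n + h`, `h ∈ H`, are prime, and each of them is a
prime or a product of two different primes, all of these primes being at least `N ^ ξ`. -/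
noncomputable def count (H : Finset ℕ) (ξ : ℝ) (N : ℕ) : ℕ :=
  ((Icc 1 N).filter (fun n => H.card ≤ 2 * (H.filter (fun h => (n + h).Prime)).card ∧
    ∀ h ∈ H, ((n + h).Prime ∨ ∃ p q : ℕ, p.Prime ∧ q.Prime ∧ p < q ∧ n + h = p * q) ∧
      ∀ q : ℕ, q.Prime → q ∣ n + h → (N : ℝ) ^ ξ ≤ q)).card

open Pool.Agent.Y822 Pool.Agent.Y822.Par3 Pool.Agent.H528.HCmb

lemma count_eq (H : Finset ℕ) (ξ : ℝ) (N : ℕ) (hN : 1 ≤ N) : count H ξ N = cntH H (zN ξ N) N := by
  classical
  unfold count cntH
  congr 1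
  refine filter_congr fun n _ => ?_
  refine and_congr_right fun _ => forall₂_congr fun h _ => ?_
  unfold E2
  rw [and_comm]
  refine and_congr_left fun _ => ?_
  constructor
  · intro h1 q hq hqz hqd
    have h3 := zN_lt' (ε₁ := ξ) hN (h1 q hq hqd)
    omega
  · intro h1 q hq hqd
    by_contra h2
    push Not at h2
    exact h1 q hq (le_zN h2) hqd

open Classical in
theorem result :
    -- the conjectured constants are convergent products, positive for admissible patterns
    (∀ H : Finset ℕ, HasProd (fun p : Nat.Primes => locT H p) (CT H) ∧ (Adm H → 0 < CT H)) ∧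
    -- at least half of the members of almost every `k`-tuple are prime, the others products of two primes
    ∀ k : ℕ, 2 ≤ k → ∀ ε : ℝ, 0 < ε → ∃ δ ξ : ℝ, 0 < δ ∧ δ < 1 ∧ 0 < ξ ∧ ξ ≤ ε ∧
      ∃ N₀ : ℕ, ∀ N : ℕ, N₀ ≤ N → ∀ A : Finset ℕ, (∀ a ∈ A, 1 ≤ a ∧ a ≤ N) →
        (((A.powersetCard k).filter (fun H => Adm H ∧
          (count H ξ N : ℝ) < (2 ^ k / (k + 1) - ε) * CT H * (N / Real.log N ^ k))).card : ℝ) ≤
          A.card.choose (k - 1) * (N : ℝ) ^ δ := by
  refine ⟨fun H => ⟨CT_hasProd _, fun hA => ?_⟩, fun k hk ε hε => ?_⟩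
  · rw [← CT_en]
    apply Pool.Agent.H386R2.HL.singularSeries_pos (en_inj _)
    intro p hp
    rw [nu_en]
    exact hA p hp
  · obtain ⟨k, rfl⟩ : ∃ j, k = j + 1 := ⟨k - 1, by omega⟩
    obtain ⟨δ, hδ1, hδ2, ξ, hξ, hξ8, hξε, B, hB⟩ :=
      Pool.Agent.H528.Half.half Pool.Agent.Y978.QL.prm Pool.Agent.Y822.Q.int0 k (by omega) ε hε
    have e2 := ev_logN (ev_pow_exp B ((1 - δ) / 2) 1 (by linarith))
    obtain ⟨N₀, hN₀⟩ := eventually_atTop.1 (hB.and e2)
    refine ⟨(1 + δ) / 2, ξ, by linarith, by linarith, hξ, hξε, max N₀ 1, fun N hN A hA => ?_⟩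
    obtain ⟨h1, h2⟩ := hN₀ N ((le_max_left _ _).trans hN)
    have hN1 : 1 ≤ N := (le_max_right _ _).trans hN
    have hN0 : (0 : ℝ) < N := by exact_mod_cast hN1
    rw [Nat.add_sub_cancel]
    refine (h1 A hA _ fun H hH => ?_).trans (mul_le_mul_of_nonneg_left ?_ (Nat.cast_nonneg _))
    · rw [mem_filter, count_eq H ξ N hN1] at hH
      refine ⟨hH.1, hH.2.1, lt_of_lt_of_le hH.2.2 (le_of_eq ?_)⟩
      push_cast
      ring
    · rw [one_mul] at h2
      have e3 : (N : ℝ) ^ ((1 + δ) / 2) = (N : ℝ) ^ δ * Real.exp ((1 - δ) / 2 * Real.log N) := by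
        rw [mul_comm ((1 - δ) / 2), ← Real.rpow_def_of_pos hN0, ← Real.rpow_add hN0]
        congr 1
        ring
      rw [e3]
      exact mul_le_mul_of_nonneg_left h2 (by positivity)

end Pool.Agent.Results.MP_8923e7_nt.HalfPrimesRestSemiprimes
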