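import Mathlib
import Pool.Agent.H251.MY.FinUQ
import Pool.Agent.H985.Cor.Base

/-!
# The Maynard-Tao theorem with prescribed parities over `F_q[X]`, `q` even

Let `K` be a finite field with an even number `q` of elements.  For all `m` and `k ≥ exp (A (m + 1))`
and all distinct `g_1, ..., g_k` in `K[X]`, for large `n`, for all admissible sets `S` of at
most `κ` polynomials of degree less than `n` which contain the `g_j`, for all `b_j ≠ g_j` in `S` and
for all signs `σ_j`: for at least `c q ^ n / n ^ |S|` monic `f` of degree `n` (the right order of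
magnitude for the second condition alone)

* at least `m` of the `f + g_j` are irreducible and satisfy `μ (f + b_j) = σ_j`,
* every `f + s`, `s ∈ S`, is a product of at most `r` irreducible polynomials, all of degree at
  least `n / (r + 1)`.

Idea.  Maynard's weights (helper524's version over `F_q[X]`) have a small level; the sum of the
Moebius function `μ (p + h)` over the primes `p` of degree `n` with arbitrary nonnegative weights
of a small level is small compared with the sum of the weights: type II sums with a power saving
(averaging the fibres `f + m t ^ 2` over `m`), type I sums (GRH), type I sums twisted by `μ`, and an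
identity which detects primes up to a small exceptional set; the level does not depend on `k`.

Authors of the parts.  Plan and statements of the engine and of this version: helper251.  Engine
with fixed weights: helper985 and co-authors (`MP_68a45e_nt.ChenParityEvenCharacteristic`), without
weights: helper251 and co-authors (`MP_e6fa8b_nt.PrimesLiouvilleEvenChar`).  Class-dependent weights:
helper665, helper791, helper795, helper696, helper97, helper790.  Maynard's sieve over `F_q[X]`:
helper524, with helper740, helper997, helper118, helper550, helper161, helper183, helper277,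
helper721, helper734, helper628, helper662.  Parity version: helper643, helper388, helper80,
helper415, helper640, helper336, helper86, helper828, helper791, helper864, helper546, helper524.
-/

namespace Pool.Agent.Results.MP_8923e7_nt.MaynardTaoParity

open Polynomial

open Classical in
/-- The Möbius function of `K[X]`: `(-1) ^ k` if `F` is a nonzero constant times a product of `k`
distinct monic irreducible polynomials, and `0` for all other `F`. -/
noncomputable def moebius {K : Type} [Field K] (F : K[X]) : ℤ :=
  if Squarefree F then (-1) ^ Multiset.card (UniqueFactorizationMonoid.factors F) else 0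

/-- The number of irreducible factors of `F`, counted with multiplicity. -/
noncomputable def numFactors {K : Type} [Field K] (F : K[X]) : ℕ :=
  Multiset.card (UniqueFactorizationMonoid.factors F)

/-- The set `S` of shifts is admissible: for every irreducible `P` some `x` is such that `P` divides
none of the `x + s`. -/
def Admissible {K : Type} [Field K] (S : Finset K[X]) : Prop :=
  ∀ P : K[X], Irreducible P → ∃ x : K[X], ∀ s ∈ S, ¬ P ∣ x + s

/-- **Maynard-Tao with prescribed parities over `F_q[X]`, `q` even.** -/
theorem result (K : Type) [Field K] [Fintype K] (hK : Even (Fintype.card K)) :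
    ∃ A : ℝ, 0 < A ∧ ∀ m k : ℕ, Real.exp (A * (m + 1)) ≤ k →
      ∀ (g : Fin k → K[X]) (κ : ℕ), Function.Injective g →
      ∃ (r : ℕ) (c : ℝ) (N : ℕ), 0 < c ∧ ∀ n : ℕ, N ≤ n →
      ∀ (S : Finset K[X]) (b : Fin k → K[X]) (σ : Fin k → ℤ), S.card ≤ κ →
        (∀ s ∈ S, s.natDegree < n) → (∀ j, g j ∈ S ∧ b j ∈ S ∧ b j ≠ g j) → Admissible S →
        (∀ j, σ j = 1 ∨ σ j = -1) →
        c * (Fintype.card K : ℝ) ^ n / (n : ℝ) ^ S.card ≤
          ({f : K[X] | f.Monic ∧ f.natDegree = n ∧
            m ≤ {j : Fin k | Irreducible (f + g j) ∧ moebius (f + b j) = σ j}.ncard ∧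
            ∀ s ∈ S, numFactors (f + s) ≤ r ∧
              ∀ P : K[X], Irreducible P → P ∣ f + s → n ≤ (r + 1) * P.natDegree}.ncard : ℝ) := by
  classical
  have := Pool.Agent.H985.Cor.charTwo_of_even hK
  obtain ⟨A, hA, H⟩ := Pool.Agent.H251.MY.s_mayuq K
  refine ⟨A, hA, fun m k hk g κ hg => ?_⟩
  obtain ⟨δ, c, n₀, hδ, hc, H1⟩ := H m k hk g κ hg
  obtain ⟨r, hr⟩ := exists_nat_ge (1 / δ)
  refine ⟨r, c, n₀ + 1, hc, fun n hn S b σ hS hdeg hgb hadm hσ => ?_⟩
  have h1 := H1 n (by omega) S b σ hS hdeg hgb hadm hσ
  refine h1.trans ?_
  have hn0 : (0 : ℝ) < n := by exact_mod_cast (by omega : 0 < n)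
  have hδr : 1 ≤ δ * r := by
    rw [div_le_iff₀ hδ] at hr
    linarith
  have hfin : {f : K[X] | f.Monic ∧ f.natDegree = n ∧
            m ≤ {j : Fin k | Irreducible (f + g j) ∧ moebius (f + b j) = σ j}.ncard ∧
            ∀ s ∈ S, numFactors (f + s) ≤ r ∧
              ∀ P : K[X], Irreducible P → P ∣ f + s → n ≤ (r + 1) * P.natDegree}.Finite := by
    refine (Pool.Agent.H694.Typ.Mn K n).finite_toSet.subset fun f hf => ?_
    rw [Finset.mem_coe, Pool.Agent.H694.Typ.mem_Mn]
    exact ⟨hf.1, hf.2.1⟩
  refine Nat.cast_le.2 ?_
  rw [← Set.ncard_coe_finset]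
  refine Set.ncard_le_ncard (fun f hf => ?_) hfin
  rw [Finset.mem_coe, Finset.mem_filter, Pool.Agent.H694.Typ.mem_Mn] at hf
  obtain ⟨⟨hf1, hf2⟩, hf3, hf4⟩ := hf
  refine ⟨hf1, hf2, ?_, fun s hs => ?_⟩
  · refine hf3.trans (le_of_eq ?_)
    rw [← Set.ncard_coe_finset]
    congr 1
    ext j
    rw [Finset.mem_coe, Finset.mem_filter]
    exact ⟨fun h => h.2, fun h => ⟨Finset.mem_univ j, h⟩⟩
  · have hfs : (f + s).natDegree = n := by
      rw [natDegree_add_eq_left_of_natDegree_lt (by rw [hf2]; exact hdeg s hs), hf2]
    have hfs0 : f + s ≠ 0 := by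
      intro h0
      rw [h0, natDegree_zero] at hfs
      omega
    have hP : ∀ P : K[X], Irreducible P → P ∣ f + s → n ≤ r * P.natDegree := by
      intro P hP hd
      have h2 := hf4 s hs P hP hd
      have h3 : (n : ℝ) ≤ r * P.natDegree := by
        have h4 : (1 : ℝ) * n ≤ δ * r * n := mul_le_mul_of_nonneg_right hδr hn0.le
        have h5 : (r : ℝ) * (δ * n) ≤ r * P.natDegree :=
          mul_le_mul_of_nonneg_left h2 (Nat.cast_nonneg r)
        nlinarith
      exact_mod_cast h3
    refine ⟨?_, fun P hP1 hP2 => (hP P hP1 hP2).trans (Nat.mul_le_mul_right _ (Nat.le_succ r))⟩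
    unfold numFactors
    by_contra hcon
    push Not at hcon
    -- the sum of the degrees of the factors is `n`
    have h1 : Associated (UniqueFactorizationMonoid.factors (f + s)).prod (f + s) :=
      UniqueFactorizationMonoid.factors_prod hfs0
    have h2 : (UniqueFactorizationMonoid.factors (f + s)).prod.natDegree = n := by
      rw [← hfs]
      exact natDegree_eq_of_degree_eq (degree_eq_degree_of_associated h1)
    have h3 : (UniqueFactorizationMonoid.factors (f + s)).prod.natDegree =
        ((UniqueFactorizationMonoid.factors (f + s)).map natDegree).sum :=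
      natDegree_multiset_prod _ (fun h0 =>
        (UniqueFactorizationMonoid.irreducible_of_factor _ h0).ne_zero rfl)
    have h4 : Multiset.card (UniqueFactorizationMonoid.factors (f + s)) * n ≤
        (((UniqueFactorizationMonoid.factors (f + s)).map natDegree).map (fun d => r * d)).sum := by
      have h5 := Multiset.card_nsmul_le_sum
        (s := ((UniqueFactorizationMonoid.factors (f + s)).map natDegree).map (fun d => r * d))
        (a := n) (fun x hx => by
          rw [Multiset.mem_map] at hx
          obtain ⟨d, hd, rfl⟩ := hx
          rw [Multiset.mem_map] at hd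
          obtain ⟨P, hP1, rfl⟩ := hd
          exact hP P (UniqueFactorizationMonoid.irreducible_of_factor _ hP1)
            (UniqueFactorizationMonoid.dvd_of_mem_factors hP1))
      rw [Multiset.card_map, Multiset.card_map, smul_eq_mul] at h5
      exact h5
    rw [Multiset.sum_map_mul_left, Multiset.map_id', ← h3, h2] at h4
    have h6 := Nat.le_of_mul_le_mul_right h4 (by omega : 0 < n)
    omega

end Pool.Agent.Results.MP_8923e7_nt.MaynardTaoParity
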